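import Pool.Agent.E8helper71.AZ.Fin

/-!
# Consequences of project AZ for fields of finite transcendence degree
-/

set_option autoImplicit false

namespace Pool.Agent.E8helper73.AZ

open Pool.Agent.E8helper42.AZ Pool.Agent.E8helper71.AZ

/-- the indices: `none` stands for `ζ(3)` -/
abbrev Ix := Option {p : ℕ × ℚ // p.1 < 4 ∧ 0 < p.2}

/-- `ζ(3)` and the numbers `I_j(t)` -/
noncomputable def num (x : Ix) : ℝ := x.elim z3 (fun p => Ij p.1.1 p.1.2)

/-- part 2 of `S_FIN` -/
def S_TD : Prop := ∀ S : Finset (ℕ × ℚ), (∀ p ∈ S, p.1 < 4 ∧ 0 < p.2) →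
    (S.card : Cardinal) ≤ Algebra.trdeg ℚ
      (IntermediateField.adjoin ℚ ({z3} ∪ (fun p : ℕ × ℚ => Ij p.1 p.2) '' (S : Set (ℕ × ℚ))))

/-- if all elements of `G` but those of `s` are algebraic over `K`, then
`trdeg ℚ(G) ≤ trdeg K + |s|` -/
lemma trdeg_adjoin_le (K : IntermediateField ℚ ℝ) (G s : Set ℝ)
    (h : ∀ g ∈ G, g ∈ s ∨ IsAlgebraic K g) :
    Algebra.trdeg ℚ (IntermediateField.adjoin ℚ G) ≤ Algebra.trdeg ℚ K + Cardinal.mk s := by
  set M := IntermediateField.adjoin K G with hM
  have f1 : FaithfulSMul K M :=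
    (faithfulSMul_iff_algebraMap_injective K M).mpr (algebraMap K M).injective
  have f2 : FaithfulSMul ℚ K :=
    (faithfulSMul_iff_algebraMap_injective ℚ K).mpr (algebraMap ℚ K).injective
  have h1 : Algebra.trdeg ℚ K + Algebra.trdeg K M = Algebra.trdeg ℚ M := trdeg_add_eq ℚ K
  have h2 : Algebra.trdeg K M ≤ Cardinal.mk s := trdegA G s h
  have h3 : Algebra.trdeg ℚ (IntermediateField.adjoin ℚ G) ≤ Algebra.trdeg ℚ M := by
    have hle : IntermediateField.adjoin ℚ G ≤ M.restrictScalars ℚ := by
      rw [IntermediateField.adjoin_le_iff]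
      exact IntermediateField.subset_adjoin K G
    exact trdeg_le_of_injective (A' := M) (IntermediateField.inclusion hle)
      (IntermediateField.inclusion_injective hle)
  calc Algebra.trdeg ℚ (IntermediateField.adjoin ℚ G) ≤ Algebra.trdeg ℚ M := h3
    _ = Algebra.trdeg ℚ K + Algebra.trdeg K M := h1.symm
    _ ≤ _ := by gcongr

/-- at most `r + 1` of the numbers are algebraic over a field of transcendence degree `r` -/
theorem count (hTD : S_TD) (K : IntermediateField ℚ ℝ) (r : ℕ) (hr : Algebra.trdeg ℚ K ≤ (r : Cardinal))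
    (F : Finset Ix) (hF : ∀ x ∈ F, IsAlgebraic K (num x)) : F.card ≤ r + 1 := by
  classical
  set F' : Finset {p : ℕ × ℚ // p.1 < 4 ∧ 0 < p.2} := F.eraseNone with hF'
  set S : Finset (ℕ × ℚ) := F'.image Subtype.val with hS
  have hSc : S.card = F'.card := Finset.card_image_of_injective _ Subtype.val_injective
  have hS4 : ∀ p ∈ S, p.1 < 4 ∧ 0 < p.2 := by
    intro q hq
    obtain ⟨p, -, rfl⟩ := Finset.mem_image.mp hq
    exact p.2
  have hal : ∀ q ∈ S, IsAlgebraic K (Ij q.1 q.2) := by
    intro q hq
    obtain ⟨p, hp, rfl⟩ := Finset.mem_image.mp hq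
    exact hF (some p) (Finset.mem_eraseNone.mp hp)
  have h1 := hTD S hS4
  by_cases hn : (none : Ix) ∈ F
  · have h2 := trdeg_adjoin_le K ({z3} ∪ (fun p : ℕ × ℚ => Ij p.1 p.2) '' (S : Set (ℕ × ℚ))) ∅ (by
      rintro g (hg | ⟨q, hq, rfl⟩)
      · right
        rw [Set.mem_singleton_iff.mp hg]
        exact hF none hn
      · exact Or.inr (hal q hq))
    have h3 := h1.trans h2
    rw [Cardinal.mk_eq_zero, add_zero] at h3
    have h4 : S.card ≤ r := by exact_mod_cast h3.trans hr
    have h5 : F.card ≤ F'.card + 1 := by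
      have := Finset.card_le_card (show F ⊆ insert none (F'.map Function.Embedding.some) from by
        intro x hx
        rcases x with _ | x
        · exact Finset.mem_insert_self _ _
        · apply Finset.mem_insert_of_mem
          rw [Finset.mem_map]
          exact ⟨x, Finset.mem_eraseNone.mpr hx, rfl⟩)
      refine this.trans ((Finset.card_insert_le _ _).trans ?_)
      rw [Finset.card_map]
    omega
  · have h2 := trdeg_adjoin_le K ({z3} ∪ (fun p : ℕ × ℚ => Ij p.1 p.2) '' (S : Set (ℕ × ℚ))) {z3} (by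
      rintro g (hg | ⟨q, hq, rfl⟩)
      · exact Or.inl hg
      · exact Or.inr (hal q hq))
    have h3 := h1.trans h2
    rw [Cardinal.mk_singleton] at h3
    have h4 : S.card ≤ r + 1 := by
      have : (S.card : Cardinal) ≤ ((r + 1 : ℕ) : Cardinal) := by
        push_cast
        exact h3.trans (by gcongr)
      exact_mod_cast this
    have h5 : F.card ≤ F'.card := by
      have := Finset.card_le_card (show F ⊆ F'.map Function.Embedding.some from by
        intro x hx
        rcases x with _ | x
        · exact absurd hx hn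
        · rw [Finset.mem_map]
          exact ⟨x, Finset.mem_eraseNone.mpr hx, rfl⟩)
      rwa [Finset.card_map] at this
    omega

end Pool.Agent.E8helper73.AZ
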