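import Pool.Agent.E8helper71.AZ.Fin
import Pool.Agent.E8helper42.AZ.Stm3

/-!
# Project AZ: the final algebra
-/

set_option autoImplicit false

namespace Pool.Agent.E8helper73.AZ

open Pool.Agent.E8helper42.AZ Pool.Agent.E8helper71.AZ

section

variable {σ : Type} {z : ℝ} {x y : σ → ℝ}

/-- the first part -/
theorem fg1 (hxy : AlgebraicIndependent ℚ (Sum.elim x y)) (G : Set ℝ)
    (hz : IsAlgebraic (IntermediateField.adjoin ℚ G) z) (S : Finset σ) :
    (S.card : Cardinal) ≤ Algebra.trdeg ℚ
      (IntermediateField.adjoin ℚ (G ∪ (fun s => z * x s - y s) '' (S : Set σ))) := by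
  classical
  set G' : Set ℝ := G ∪ (fun s => z * x s - y s) '' (S : Set σ) with hG'
  set K := IntermediateField.adjoin ℚ G' with hK
  have hGK : G' ⊆ K := IntermediateField.subset_adjoin ℚ G'
  have hzK : IsAlgebraic K z := by
    have hle : IntermediateField.adjoin ℚ G ≤ K :=
      IntermediateField.adjoin.mono ℚ G G' Set.subset_union_left
    letI : Algebra (IntermediateField.adjoin ℚ G) K := (IntermediateField.inclusion hle).toAlgebra
    haveI : IsScalarTower (IntermediateField.adjoin ℚ G) K ℝ :=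
      IsScalarTower.of_algebraMap_eq fun _ => rfl
    exact hz.tower_top K
  set Xs : Set ℝ := x '' (S : Set σ) with hXs
  set K' := IntermediateField.adjoin K (Xs ∪ {z}) with hK'
  have hXK : Xs ∪ {z} ⊆ K' := IntermediateField.subset_adjoin K _
  have hKK : ∀ u ∈ K, u ∈ K' := fun u hu => K'.algebraMap_mem ⟨u, hu⟩
  have hx : ∀ s ∈ S, x s ∈ K' := fun s hs => hXK (Or.inl ⟨s, hs, rfl⟩)
  have hz' : z ∈ K' := hXK (Or.inr rfl)
  have hy : ∀ s ∈ S, y s ∈ K' := by
    intro s hs
    have h1 : y s = z * x s - (z * x s - y s) := by ring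
    rw [h1]
    refine K'.sub_mem (K'.mul_mem hz' (hx s hs)) (hKK _ (hGK ?_))
    exact Or.inr ⟨s, hs, rfl⟩
  have h1 : Algebra.trdeg K K' ≤ (S.card : Cardinal) := by
    refine (trdegA (Xs ∪ {z}) Xs (by
      rintro g (hg | hg)
      · exact Or.inl hg
      · rw [Set.mem_singleton_iff.mp hg]
        exact Or.inr hzK)).trans ?_
    refine (Cardinal.mk_image_le).trans ?_
    exact (Cardinal.mk_coe_finset).le
  have h2 : ((S.card + S.card : ℕ) : Cardinal) ≤ Algebra.trdeg ℚ K' := by
    let v : S ⊕ S → K' := Sum.elim (fun p => ⟨x p.1, hx p.1 p.2⟩) (fun p => ⟨y p.1, hy p.1 p.2⟩)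
    have hv : AlgebraicIndependent ℚ v := by
      apply AlgebraicIndependent.of_comp (K'.val.restrictScalars ℚ)
      have h3 := hxy.comp (Sum.map (Subtype.val : S → σ) (Subtype.val : S → σ))
        (Subtype.val_injective.sumMap Subtype.val_injective)
      convert h3 using 1
      funext u
      rcases u with u | u
      · rfl
      · rfl
    have h4 := hv.cardinalMk_le_trdeg
    rw [Cardinal.mk_sum, Cardinal.lift_id, Cardinal.mk_coe_finset] at h4
    rw [Nat.cast_add]
    exact h4
  have f1 : FaithfulSMul K K' :=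
    (faithfulSMul_iff_algebraMap_injective K K').mpr (algebraMap K K').injective
  have f2 : FaithfulSMul ℚ K :=
    (faithfulSMul_iff_algebraMap_injective ℚ K).mpr (algebraMap ℚ K).injective
  have h3 : Algebra.trdeg ℚ K + Algebra.trdeg K K' = Algebra.trdeg ℚ K' :=
    trdeg_add_eq ℚ K
  by_contra hcon
  push Not at hcon
  obtain ⟨m, hm⟩ := Cardinal.lt_aleph0.mp (hcon.trans (Cardinal.natCast_lt_aleph0))
  obtain ⟨m', hm'⟩ := Cardinal.lt_aleph0.mp (h1.trans_lt (Cardinal.natCast_lt_aleph0))
  rw [hm] at hcon h3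
  rw [hm'] at h1 h3
  rw [← h3] at h2
  have e1 : m < S.card := by exact_mod_cast hcon
  have e2 : m' ≤ S.card := by exact_mod_cast h1
  have e3 : S.card + S.card ≤ m + m' := by exact_mod_cast h2
  omega

/-- the last part -/
theorem fg4 (hxy : AlgebraicIndependent ℚ (Sum.elim x y)) (r : ℕ) (w : Fin r → ℝ)
    (hz : IsAlgebraic (IntermediateField.adjoin ℚ (Set.range w)) z) :
    {i : Fin r ⊕ σ | IsAlgebraic ℚ (i.elim w fun s => z * x s - y s)}.encard ≤ (r : ℕ∞) := by
  classical
  by_contra hcon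
  push Not at hcon
  have h0 : ((r + 1 : ℕ) : ℕ∞) ≤
      {i : Fin r ⊕ σ | IsAlgebraic ℚ (i.elim w fun s => z * x s - y s)}.encard := by
    rw [Nat.cast_add, Nat.cast_one]
    exact Order.add_one_le_of_lt hcon
  obtain ⟨T, hT, hTc⟩ := Set.exists_subset_encard_eq h0
  have hTf : T.Finite := Set.finite_of_encard_eq_coe hTc
  obtain ⟨F, rfl⟩ : ∃ F : Finset (Fin r ⊕ σ), T = (F : Set (Fin r ⊕ σ)) :=
    ⟨hTf.toFinset, by simp⟩
  rw [Set.encard_coe_eq_coe_finsetCard] at hTc
  have hFc : F.card = r + 1 := by exact_mod_cast hTc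
  set A : Finset (Fin r) := F.toLeft with hA
  set S : Finset σ := F.toRight with hS
  have hAS : A.card + S.card = r + 1 := by
    rw [← hFc]
    exact Finset.card_toLeft_add_card_toRight
  have hAal : ∀ i ∈ A, IsAlgebraic ℚ (w i) := fun i hi => hT (Finset.mem_toLeft.mp hi)
  have hSal : ∀ s ∈ S, IsAlgebraic ℚ (z * x s - y s) := fun s hs => hT (Finset.mem_toRight.mp hs)
  have h1 := fg1 hxy (Set.range w) hz S
  have h2 := h1.trans (trdegA _ (w '' ((Finset.univ \ A : Finset (Fin r)) : Set (Fin r))) (by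
    rintro g (⟨i, rfl⟩ | ⟨s, hs, rfl⟩)
    · by_cases hi : i ∈ A
      · exact Or.inr (hAal i hi)
      · left
        refine ⟨i, ?_, rfl⟩
        rw [Finset.mem_coe, Finset.mem_sdiff]
        exact ⟨Finset.mem_univ _, hi⟩
    · exact Or.inr (hSal s hs)))
  have h3 := h2.trans (Cardinal.mk_image_le.trans (Cardinal.mk_coe_finset).le)
  have h4 : S.card ≤ (Finset.univ \ A : Finset (Fin r)).card := by exact_mod_cast h3
  rw [Finset.card_sdiff_of_subset (Finset.subset_univ A), Finset.card_univ, Fintype.card_fin] at h4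
  have h5 : A.card ≤ r := by
    have := Finset.card_le_univ A
    rwa [Fintype.card_fin] at this
  omega

/-- FG -/
theorem t_FG : S_FG := by
  classical
  intro σ z x y hxy
  refine ⟨fun G hz S => fg1 hxy G hz S, ?_, ?_, fun r w hz => fg4 hxy r w hz⟩
  · -- at most one
    have h1 := fg4 hxy 1 (fun _ => z) (by
      have h2 : z ∈ IntermediateField.adjoin ℚ (Set.range fun _ : Fin 1 => z) :=
        IntermediateField.subset_adjoin ℚ _ ⟨0, rfl⟩
      exact isAlgebraic_algebraMap
        (⟨z, h2⟩ : IntermediateField.adjoin ℚ (Set.range fun _ : Fin 1 => z)))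
    rw [Nat.cast_one, Set.encard_le_one_iff] at h1
    intro o o' ho ho'
    let f : Option σ → Fin 1 ⊕ σ := fun o => o.elim (Sum.inl 0) Sum.inr
    have hf : ∀ o : Option σ, IsAlgebraic ℚ (o.elim z fun s => z * x s - y s) →
        f o ∈ {i : Fin 1 ⊕ σ | IsAlgebraic ℚ (i.elim (fun _ => z) fun s => z * x s - y s)} := by
      intro o ho
      rcases o with _ | o
      · exact ho
      · exact ho
    have h3 := h1 _ _ (hf o ho) (hf o' ho')
    rcases o with _ | o <;> rcases o' with _ | o'
    · rfl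
    · exact absurd h3 (by simp [f])
    · exact absurd h3 (by simp [f])
    · have h4 : (Sum.inr o : Fin 1 ⊕ σ) = Sum.inr o' := h3
      rw [Sum.inr.inj h4]
  · -- the alternative
    intro hz
    refine algebraicIndependent_of_finite_type fun t ht => ?_
    haveI : Finite t := ht.to_subtype
    haveI : Fintype t := ht.fintype
    have h3 := fg1 hxy (∅ : Set ℝ) (hz.tower_top _) ht.toFinset
    set G : Set ℝ := ∅ ∪ (fun s => z * x s - y s) '' (ht.toFinset : Set σ) with hG
    set K := IntermediateField.adjoin ℚ G with hK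
    have hGK : G ⊆ K := IntermediateField.subset_adjoin ℚ G
    have hm : ∀ p : t, z * x p.1 - y p.1 ∈ K := by
      intro p
      apply hGK
      refine Or.inr ⟨p.1, ?_, rfl⟩
      rw [Finset.mem_coe, ht.mem_toFinset]
      exact p.2
    let v : t → K := fun p => ⟨z * x p.1 - y p.1, hm p⟩
    have hr : Set.range v = {u : K | (u : ℝ) ∈ (fun s => z * x s - y s) '' (ht.toFinset : Set σ)} := by
      ext u
      constructor
      · rintro ⟨p, rfl⟩
        refine ⟨p.1, ?_, rfl⟩
        rw [Finset.mem_coe, ht.mem_toFinset]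
        exact p.2
      · rintro ⟨q, hq, hqx⟩
        exact ⟨⟨q, ht.mem_toFinset.mp (Finset.mem_coe.mp hq)⟩, Subtype.ext hqx⟩
    haveI : Algebra.IsAlgebraic (Algebra.adjoin ℚ (Set.range v)) K := by
      rw [hr]
      apply algA
      rintro g (hg | hg)
      · exact absurd hg (Set.notMem_empty g)
      · exact Or.inl hg
    have hcard : Cardinal.mk t ≤ Algebra.trdeg ℚ K := by
      have h5 : Cardinal.mk t = (ht.toFinset.card : Cardinal) := by
        rw [← Cardinal.mk_coe_finset]
        exact Cardinal.mk_congr (Equiv.subtypeEquivRight fun x => ht.mem_toFinset.symm)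
      rw [h5]
      exact h3
    have hb := Algebra.IsAlgebraic.isTranscendenceBasis_of_le_trdeg_of_finite ℚ v hcard
    exact hb.1.map' (f := K.val) K.val.injective

end

end Pool.Agent.E8helper73.AZ
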